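import Mathlib

/-!
Ultrapowers of algebraically closed fields.
-/

set_option autoImplicit false

namespace Pool.Agent.K9h33.SYM

open Filter MvPolynomial

/-- a nonprincipal ultrafilter -/
noncomputable abbrev UF : Ultrafilter ℕ := hyperfilter ℕ

/-- the ultrapower -/
def UP (K : Type) : Type := Germ (UF : Filter ℕ) K

noncomputable instance (K : Type) [Field K] : Field (UP K) :=
  inferInstanceAs (Field (Germ (UF : Filter ℕ) K))

variable {K : Type} [Field K]

/-- the class of a sequence -/
noncomputable def uc : (ℕ → K) →+* UP K := Germ.coeRingHom (UF : Filter ℕ)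

theorem uc_surj (x : UP K) : ∃ c, uc c = x := by
  induction x using Germ.inductionOn with
  | _ f => exact ⟨f, rfl⟩

theorem uc_eq {a b : ℕ → K} : uc a = uc b ↔ ∀ᶠ k in (UF : Filter ℕ), a k = b k :=
  Germ.coe_eq

theorem uc_zero {a : ℕ → K} : uc a = 0 ↔ ∀ᶠ k in (UF : Filter ℕ), a k = 0 := by
  rw [← map_zero (uc (K := K)), uc_eq]
  rfl

noncomputable instance : Algebra K (UP K) := (uc.comp (Pi.constRingHom ℕ K)).toAlgebra

theorem algebraMap_up (c : K) : algebraMap K (UP K) c = uc fun _ => c := rfl

theorem isAlgClosed_UP [IsAlgClosed K] : IsAlgClosed (UP K) := by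
  apply IsAlgClosed.of_exists_root
  intro p hp hirr
  choose c hc using fun i => uc_surj (p.coeff i)
  have hn : 0 < p.natDegree := hirr.natDegree_pos
  have hroot : ∀ k, ∃ x : K, x ^ p.natDegree + ∑ i ∈ Finset.range p.natDegree, c i k * x ^ i = 0 := by
    intro k
    let q : Polynomial K := Polynomial.X ^ p.natDegree +
      ∑ i ∈ Finset.range p.natDegree, Polynomial.C (c i k) * Polynomial.X ^ i
    have hq : q.degree ≠ 0 := by
      have h1 : (∑ i ∈ Finset.range p.natDegree, Polynomial.C (c i k) * Polynomial.X ^ i :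
          Polynomial K).degree < p.natDegree := by
        apply (Polynomial.degree_sum_le _ _).trans_lt
        rw [Finset.sup_lt_iff (WithBot.bot_lt_coe _)]
        intro i hi
        refine (Polynomial.degree_C_mul_X_pow_le i (c i k)).trans_lt ?_
        exact_mod_cast Finset.mem_range.1 hi
      have h2 : q.degree = p.natDegree := by
        rw [Polynomial.degree_add_eq_left_of_degree_lt]
        · exact Polynomial.degree_X_pow _
        · rw [Polynomial.degree_X_pow]
          exact h1
      rw [h2]
      exact_mod_cast hn.ne'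
    obtain ⟨x, hx⟩ := IsAlgClosed.exists_root q hq
    refine ⟨x, ?_⟩
    have h3 : q.eval x = 0 := hx
    simpa [q, Polynomial.eval_finsetSum] using h3
  choose x hx using hroot
  refine ⟨uc x, ?_⟩
  rw [Polynomial.eval_eq_sum_range, Finset.sum_range_succ, hp.coeff_natDegree, one_mul]
  have h1 : uc (x ^ p.natDegree + ∑ i ∈ Finset.range p.natDegree, c i * x ^ i) = 0 := by
    have h2 : x ^ p.natDegree + ∑ i ∈ Finset.range p.natDegree, c i * x ^ i = 0 := by
      funext k
      have h3 := hx k
      simpa [Finset.sum_apply] using h3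
    rw [h2, map_zero]
  rw [map_add, map_sum, map_pow] at h1
  simp only [map_mul, map_pow, hc] at h1
  rw [add_comm]
  exact h1

/-- the values of polynomials at classes of sequences -/
theorem aeval_uc {σ : Type} (u : ℕ → σ → K) (f : MvPolynomial σ K) :
    aeval (fun s => uc fun i => u i s) f = uc fun i => aeval (u i) f := by
  have h1 : (fun i => aeval (u i) f) =
      eval₂ (Pi.constRingHom ℕ K) (fun s i => u i s) f := by
    funext i
    have h2 := eval₂_comp_left (Pi.evalRingHom (fun _ : ℕ => K) i) (Pi.constRingHom ℕ K)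
      (fun s i => u i s) f
    exact h2.symm
  rw [h1, eval₂_comp_left, aeval_def]
  rfl

/-- finitely many possibilities -/
theorem ev_fin {α : Type} {s : Set α} (hs : s.Finite) {f : ℕ → α}
    (h : ∀ᶠ k in (UF : Filter ℕ), f k ∈ s) : ∃ a ∈ s, ∀ᶠ k in (UF : Filter ℕ), f k = a := by
  have h1 : (⋃ a ∈ s, {k | f k = a}) ∈ UF := by
    filter_upwards [h] with k hk
    exact Set.mem_biUnion hk rfl
  obtain ⟨a, ha, h2⟩ := (Ultrafilter.finite_biUnion_mem_iff hs).1 h1
  exact ⟨a, ha, h2⟩

/-- injective sequences are not constant -/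
theorem not_const {α : Type} {f : ℕ → α} (hf : Function.Injective f) (a : α)
    (h : ∀ᶠ k in (UF : Filter ℕ), f k = a) : False := by
  obtain ⟨k, hk⟩ := h.exists
  have h1 : ∀ᶠ j in (UF : Filter ℕ), k + 1 ≤ j :=
    Nat.hyperfilter_le_atTop (eventually_ge_atTop (k + 1))
  obtain ⟨j, hj, hj'⟩ := (h.and h1).exists
  have h2 : j = k := hf (hj.trans hk.symm)
  omega

end Pool.Agent.K9h33.SYM
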