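import Mathlib
import Pool.Agent.N95.RF.Cor
import Pool.Agent.N95.GH.Arith
import Pool.Agent.K9h33.SYM.Ultra

/-!
Points over finitely generated fields of the projective sets which are finite over the symmetric
powers of generic complete intersections.
-/

set_option autoImplicit false
set_option linter.unusedSectionVars false
set_option linter.overlappingInstances false

open MvPolynomial LinearAlgebra.Projectivization Filter

namespace Pool.Agent.K9h33.SYM

open Pool.Agent.N111.GI (GenericCI)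
open Pool.Agent.N95.GH (OnSet BiHom Rel eqs eqs_form point_iff OnSet.scale deg_few exists_fib not_inj)
open Pool.Agent.N95.RF (SymCor point_smul rel_smul)

variable {k K : Type} [Field k] [Field K] [Algebra k K] [IsAlgClosed K] [CharZero K] {M : ℕ}
  {Φ : Set (MvPolynomial (Fin (M + 1)) K)} {X : GenericCI k K} {r : ℕ}

/-- all equations of the graph -/
def ge (Φ : Set (MvPolynomial (Fin (M + 1)) K)) (Γ : Set (MvPolynomial (Fin (M + 1) ⊕ Fin (X.n + 1)) K)) :
    Set (MvPolynomial (Fin (M + 1) ⊕ Fin (X.n + 1)) K) :=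
  (Γ ∪ rename Sum.inr '' eqs X) ∪ rename Sum.inl '' Φ

theorem mem_ge {Γ : Set (MvPolynomial (Fin (M + 1) ⊕ Fin (X.n + 1)) K)} {E : Type} [Field E]
    [Algebra K E] {z : Fin (M + 1) → E} {x : Fin (X.n + 1) → E} :
    (∀ p ∈ ge Φ Γ, aeval (Sum.elim z x) p = 0) ↔
      Rel Γ z x ∧ (∀ f ∈ eqs X, aeval x f = 0) ∧ ∀ f ∈ Φ, aeval z f = 0 := by
  have h1 : ∀ f : MvPolynomial (Fin (X.n + 1)) K,
      aeval (Sum.elim z x) (rename Sum.inr f) = aeval x f := by
    intro f
    rw [aeval_rename, Sum.elim_comp_inr]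
  have h0 : ∀ f : MvPolynomial (Fin (M + 1)) K,
      aeval (Sum.elim z x) (rename Sum.inl f) = aeval z f := by
    intro f
    rw [aeval_rename, Sum.elim_comp_inl]
  constructor
  · intro h
    exact ⟨fun T hT => h T (Or.inl (Or.inl hT)),
      fun f hf => by rw [← h1]; exact h _ (Or.inl (Or.inr ⟨f, hf, rfl⟩)),
      fun f hf => by rw [← h0]; exact h _ (Or.inr ⟨f, hf, rfl⟩)⟩
  · rintro ⟨h2, h3, h4⟩ p ((hp | ⟨f, hf, rfl⟩) | ⟨f, hf, rfl⟩)
    · exact h2 p hp
    · rw [h1]
      exact h3 f hf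
    · rw [h0]
      exact h4 f hf

/-- finitely many equations -/
theorem fin_eqs {σ : Type} [Finite σ] (S : Set (MvPolynomial σ K)) :
    ∃ Gs : Finset (MvPolynomial σ K), ↑Gs ⊆ S ∧ ∀ {E : Type} [Field E] [Algebra K E] (u : σ → E),
      (∀ f ∈ Gs, aeval u f = 0) → ∀ f ∈ S, aeval u f = 0 := by
  obtain ⟨Gs, hGs, hspan⟩ : ∃ Gs : Finset (MvPolynomial σ K),
      ↑Gs ⊆ S ∧ Ideal.span S = Ideal.span (Gs : Set _) := by
    have h1 : (Submodule.span (MvPolynomial σ K) S).FG :=
      (Ideal.fg_of_isNoetherianRing (Ideal.span S) : (Ideal.span S).FG)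
    exact (Submodule.fg_span_iff_fg_span_finset_subset _).1 h1
  refine ⟨Gs, hGs, fun {E} _ _ u hu f hf => ?_⟩
  have h1 : f ∈ Ideal.span (Gs : Set (MvPolynomial σ K)) := by
    rw [← hspan]
    exact Ideal.subset_span hf
  have h2 : Ideal.span (Gs : Set (MvPolynomial σ K)) ≤
      RingHom.ker (aeval u : MvPolynomial σ K →ₐ[K] E).toRingHom :=
    Ideal.span_le.2 fun f hf => hu f hf
  exact h2 h1

/-- the fibre over a point -/
def fibre (C : SymCor Φ X r) (q : ℙ K (Fin (M + 1) → K)) : Set (ℙ K (Fin (X.n + 1) → K)) :=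
  {p | X.Point p.rep ∧ Rel C.Γ q.rep p.rep}

/-- **There are only finitely many points with a fibre in a given finite set.** -/
theorem fibre_fin (C : SymCor Φ X r) {A : Set (ℙ K (Fin (X.n + 1) → K))} (hA : A.Finite) :
    {q : ℙ K (Fin (M + 1) → K) | OnSet Φ q.rep ∧ fibre C q ⊆ A}.Finite := by
  classical
  by_contra hcon
  have hinf : {q : ℙ K (Fin (M + 1) → K) | OnSet Φ q.rep ∧ fibre C q ⊆ A}.Infinite := hcon
  obtain ⟨c, hc⟩ := hinf.natEmbedding
  have hac : IsAlgClosed (UP K) := isAlgClosed_UP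
  let z : ℕ → Fin (M + 1) → K := fun i => (c i : ℙ K (Fin (M + 1) → K)).rep
  let zs : Fin (M + 1) → UP K := fun s => uc fun i => z i s
  have hz0 : ∀ i, z i ≠ 0 := fun i => (c i : ℙ K (Fin (M + 1) → K)).rep_nonzero
  -- a coordinate which does not vanish
  obtain ⟨b, -, hb⟩ : ∃ b ∈ (Set.univ : Set (Fin (M + 1))), {i | z i b ≠ 0} ∈ UF := by
    refine (Ultrafilter.finite_biUnion_mem_iff Set.finite_univ).1 ?_
    refine Filter.mem_of_superset Filter.univ_mem fun i _ => ?_
    obtain ⟨b, hb⟩ := Function.ne_iff.1 (hz0 i)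
    exact Set.mem_biUnion (Set.mem_univ b) hb
  have hzb : zs b ≠ 0 := by
    intro h0
    have h1 := uc_zero.1 h0
    obtain ⟨i, h2, h3⟩ := (h1.and hb).exists
    exact h3 h2
  have hzs : OnSet Φ zs := by
    refine ⟨fun h => hzb (congrFun h b), fun f hf => ?_⟩
    have h1 : aeval zs f = uc fun i => aeval (z i) f := aeval_uc z f
    rw [h1, uc_zero]
    exact Eventually.of_forall fun i => (c i).2.1.2 f hf
  obtain ⟨Gs, hGs, hspan⟩ := fin_eqs (ge Φ C.Γ)
  -- the points of the fibre are constant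
  have hcst : ∀ x : Fin (X.n + 1) → UP K, X.Point x → Rel C.Γ zs x → ∀ i j, x j ≠ 0 →
      x i / x j ∈ (⊥ : IntermediateField K (UP K)) := by
    intro x hx hR i j hj
    choose x' hx' using fun s => uc_surj (x s)
    have hx'' : x = fun s => uc fun k => x' s k := by
      funext s
      exact (hx' s).symm
    have h1 : ∀ p ∈ ge Φ C.Γ, aeval (Sum.elim zs x) p = 0 :=
      mem_ge.2 ⟨hR, (point_iff.1 hx).2, hzs.2⟩
    have h2 : ∀ p ∈ ge Φ C.Γ, ∀ᶠ k in (UF : Filter ℕ),
        aeval (Sum.elim (z k) fun s => x' s k) p = 0 := by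
      intro p hp
      have h3 := h1 p hp
      have h4 : (Sum.elim zs x) = fun s => uc fun k => Sum.elim (z k) (fun s => x' s k) s := by
        funext s
        rcases s with s | s
        · rfl
        · exact (hx' s).symm
      rw [h4, aeval_uc, uc_zero] at h3
      exact h3
    have h3 : ∀ᶠ k in (UF : Filter ℕ), ∀ p ∈ Gs, aeval (Sum.elim (z k) fun s => x' s k) p = 0 := by
      rw [eventually_all_finset]
      exact fun p hp => h2 p (hGs hp)
    have hjk : ∀ᶠ k in (UF : Filter ℕ), x' j k ≠ 0 := by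
      have h4 : ¬ ∀ᶠ k in (UF : Filter ℕ), x' j k = 0 := by
        intro h5
        apply hj
        rw [← hx' j]
        exact uc_zero.2 h5
      exact (Ultrafilter.eventually_not).2 h4
    -- the ratio of the coordinates
    have h5 : ∀ᶠ k in (UF : Filter ℕ),
        x' i k / x' j k ∈ (fun p : ℙ K (Fin (X.n + 1) → K) => p.rep i / p.rep j) '' A := by
      filter_upwards [h3, hjk] with k hk hk0
      have h0 : (fun s => x' s k) ≠ 0 := fun h => hk0 (congrFun h j)
      have h6 := mem_ge.1 (hspan _ hk)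
      have hP : X.Point (fun s => x' s k) := point_iff.2 ⟨h0, h6.2.1⟩
      obtain ⟨a, ha⟩ := Projectivization.exists_smul_eq_mk_rep K _ h0
      refine ⟨Projectivization.mk K (fun s => x' s k) h0, ?_, ?_⟩
      · apply (c k).2.2
        change X.Point (Projectivization.mk K (fun s => x' s k) h0).rep ∧
          Rel C.Γ (z k) (Projectivization.mk K (fun s => x' s k) h0).rep
        rw [← ha]
        exact ⟨point_smul hP a.ne_zero, rel_smul C.bihom h6.1 _⟩
      · change (Projectivization.mk K (fun s => x' s k) h0).rep i /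
          (Projectivization.mk K (fun s => x' s k) h0).rep j = _
        rw [← ha]
        exact mul_div_mul_left _ _ a.ne_zero
    obtain ⟨a, -, ha⟩ := ev_fin (hA.image _) h5
    refine IntermediateField.mem_bot.2 ⟨a, ?_⟩
    rw [eq_div_iff hj, ← hx' i, ← hx' j, algebraMap_up, ← map_mul, uc_eq]
    filter_upwards [ha, hjk] with k h6 h7
    change a * x' j k = x' i k
    rw [← h6, div_mul_cancel₀ _ h7]
  have hbot : IsAlgClosed (⊥ : IntermediateField K (UP K)) :=
    IsAlgClosed.of_ringEquiv K _ (IntermediateField.botEquiv K (UP K)).symm.toRingEquiv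
  have h1 := C.fin (UP K) zs hzs ⊥ hbot hcst
  have h2 : ∀ i, ∃ κ : K, ∀ᶠ k in (UF : Filter ℕ), z k i = κ * z k b := by
    intro i
    obtain ⟨κ, hκ⟩ := IntermediateField.mem_bot.1 (h1 i b hzb)
    refine ⟨κ, ?_⟩
    rw [eq_div_iff hzb, algebraMap_up] at hκ
    change uc (fun _ => κ) * uc (fun k => z k b) = uc (fun k => z k i) at hκ
    rw [← map_mul, uc_eq] at hκ
    exact hκ.mono fun k hk => hk.symm
  choose κ hκ using h2
  have h3 : ∀ᶠ k in (UF : Filter ℕ), ∀ i, z k i = κ i * z k b := eventually_all.2 hκ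
  have hκ0 : κ ≠ 0 := by
    rintro rfl
    obtain ⟨k, hk, hk'⟩ := (h3.and hb).exists
    apply hk'
    rw [hk b]
    simp
  refine not_const (f := fun k => (c k : ℙ K (Fin (M + 1) → K)))
    (fun i j h => hc (Subtype.ext h)) (Projectivization.mk K κ hκ0) ?_
  filter_upwards [h3, hb] with k hk hk'
  rw [← Projectivization.mk_rep (c k : ℙ K (Fin (M + 1) → K)), Projectivization.mk_eq_mk_iff']
  refine ⟨z k b, funext fun i => ?_⟩
  change z k b * κ i = z k i
  rw [hk i, mul_comm]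

/-- **Points over finitely generated fields.** -/
theorem fin_points (C : SymCor Φ X r) (hΦ : ∀ f ∈ Φ, ∃ e, f.IsHomogeneous e)
    (hd : 2 * X.m + 1 + r ≤ ∑ a, (X.d a + 1)) (T : Finset K) :
    {p : ℙ K (Fin (M + 1) → K) | ∃ (z : Fin (M + 1) → K) (hz : z ≠ 0),
      p = Projectivization.mk K z hz ∧ (∀ f ∈ Φ, aeval z f = 0) ∧
      ∀ i, z i ∈ IntermediateField.adjoin (algebraicClosure k K) (T : Set K)}.Finite := by
  classical
  obtain ⟨Gs, hGs, hP⟩ := fin_eqs (ge Φ C.Γ)
  obtain ⟨T1, hT1⟩ : ∃ T1 : Finset K, T1 = T ∪ Gs.biUnion fun f => f.coeffs := ⟨_, rfl⟩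
  have hcz : CharZero (IntermediateField.adjoin (algebraicClosure k K) (T1 : Set K)) :=
    (algebraMap (IntermediateField.adjoin (algebraicClosure k K) (T1 : Set K)) K).charZero
  have hX := Pool.Agent.Y735.R2.fin_proj_alg (r := r) hd X.V X.V_form X.V_dim X.F X.F_form X.I₀
    X.coeff_ne X.generic T1
  refine (fibre_fin C hX).subset ?_
  rintro q ⟨z, hz, rfl, hzΦ, hzT⟩
  obtain ⟨e, he⟩ := Projectivization.exists_smul_eq_mk_rep K z hz
  have he' : (Projectivization.mk K z hz).rep = fun j => (e : K) * z j := by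
    rw [← he]
    rfl
  refine ⟨by
    rw [he']
    exact OnSet.scale hΦ ⟨hz, hzΦ⟩ e.ne_zero, ?_⟩
  rintro p ⟨hp, hpR⟩
  obtain ⟨b0, hb0'⟩ := Function.ne_iff.1 hp.ne
  have hb0 : p.rep b0 ≠ 0 := hb0'
  obtain ⟨x1, hx1⟩ : ∃ x1 : Fin (X.n + 1) → K, x1 = (p.rep b0)⁻¹ • p.rep := ⟨_, rfl⟩
  have hx1b : x1 b0 = 1 := by rw [hx1]; exact inv_mul_cancel₀ hb0
  have hx1P : X.Point x1 := by
    rw [hx1]
    exact point_smul hp (inv_ne_zero hb0)
  have hx1S : OnSet (eqs X) x1 := point_iff.1 hx1P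
  have hzx : Rel C.Γ z p.rep := by
    have h1 := hpR.scale C.bihom (e : K)⁻¹ 1
    rw [he'] at h1
    have h2 : (fun i => (e : K)⁻¹ * ((e : K) * z i)) = z := by
      funext i
      rw [← mul_assoc, inv_mul_cancel₀ e.ne_zero, one_mul]
    rw [h2] at h1
    simpa using h1
  have hx1R : Rel C.Γ z x1 := by
    rw [hx1]
    exact rel_smul C.bihom hzx _
  have hmono : ∀ t ∈ IntermediateField.adjoin (algebraicClosure k K) (T : Set K),
      t ∈ IntermediateField.adjoin (algebraicClosure k K) (T1 : Set K) := by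
    intro t ht
    refine IntermediateField.adjoin.mono _ _ _ ?_ ht
    rw [hT1]
    exact Finset.coe_subset.2 Finset.subset_union_left
  -- the degree of the point
  have hg : ∀ f : Gs, ∃ g : MvPolynomial (Fin (X.n + 1))
      (IntermediateField.adjoin (algebraicClosure k K) (T1 : Set K)),
      ∀ x : Fin (X.n + 1) → K, aeval x g = aeval (Sum.elim z x) f.1 := by
    intro f
    refine exists_fib (F := IntermediateField.adjoin (algebraicClosure k K) (T1 : Set K))
      (fun c hc => ⟨⟨c, IntermediateField.subset_adjoin _ _ ?_⟩, rfl⟩)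
      fun i => ⟨⟨z i, hmono _ (hzT i)⟩, rfl⟩
    rw [hT1]
    exact Finset.mem_coe.2 (Finset.mem_union_right _ (Finset.mem_biUnion.2 ⟨f.1, f.2, hc⟩))
  choose g hg using hg
  have hgz : ∀ x : Fin (X.n + 1) → K, (∀ f, aeval x (g f) = 0) →
      ∀ p ∈ ge Φ C.Γ, aeval (Sum.elim z x) p = 0 := fun x hx =>
    hP _ fun f hf => by rw [← hg ⟨f, hf⟩]; exact hx _
  obtain ⟨hfd, hrk⟩ := deg_few (F := IntermediateField.adjoin (algebraicClosure k K)
      (T1 : Set K)) (K := K) (r := r) (𝒬 := Set.range g) (b0 := b0) (fun p hp hpQ =>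
    not_inj hp (C.few K z ⟨hz, hzΦ⟩ p fun l => by
      have h1 := mem_ge.1 (hgz (p l) fun f => hpQ l _ ⟨f, rfl⟩)
      refine ⟨point_iff.2 ⟨fun h => ?_, h1.2.1⟩, h1.1⟩
      have h2 := hp l
      rw [h] at h2
      exact zero_ne_one h2)) hx1b (by
    rintro _ ⟨f, rfl⟩
    rw [hg]
    exact mem_ge.2 ⟨hx1R, hx1S.2, hzΦ⟩ f.1 (hGs f.2))
  refine ⟨x1, fun f hf => ?_, fun a => ?_,
    ⟨_, hfd, hrk, fun j => IntermediateField.subset_adjoin _ _ ⟨j, rfl⟩⟩, hx1P.ne, ?_⟩
  · have h2 := hx1P.mem_V f hf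
    rwa [aeval_map_algebraMap] at h2
  · have h2 := hx1P.mem_F a
    rwa [aeval_eq_eval] at h2
  · rw [← Projectivization.mk_rep p, Projectivization.mk_eq_mk_iff']
    refine ⟨p.rep b0, ?_⟩
    rw [hx1, smul_smul, mul_inv_cancel₀ hb0, one_smul]

end Pool.Agent.K9h33.SYM
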